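import Pool.Agent.NA.Stmts

/-! Squad NAL (MP_d20576_an), row ALA (helper62): the block of a sweep which starts from `sp z K`. -/

set_option autoImplicit false

open Finset Filter Topology

noncomputable section

namespace Pool.Agent.NA.H62

open Pool.Agent.BC

theorem S_mem {X : Type} [NormedAddCommGroup X] [NormedSpace ℝ X] (z : ℕ → X) (a : ℕ → ℝ)
    (K : ℕ) : S z a K ∈ sp z K := by
  unfold S sp
  refine Submodule.sum_mem _ fun k hk => Submodule.smul_mem _ _ (Submodule.subset_span ?_)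
  exact ⟨k, Finset.mem_range.1 hk, rfl⟩

/-- the centered families as differences of the displacements -/
theorem Dv_eq {X : Type} [NormedAddCommGroup X] [NormedSpace ℝ X] (s : ℕ → ℕ) (v : ℕ → ℕ → X)
    (u : X) (m j : ℕ) : Dv s v m j =
      (v m j - u) - ((2 : ℝ) ^ s m)⁻¹ • ∑ j' ∈ range (2 ^ s m), (v m j' - u) := by
  unfold Dv
  rw [Finset.sum_sub_distrib, Finset.sum_const, card_range, ← Nat.cast_smul_eq_nsmul ℝ, smul_sub,
    smul_smul]
  push_cast
  rw [inv_mul_cancel₀ (by positivity), one_smul]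
  abel

theorem Dv_sum {X : Type} [NormedAddCommGroup X] [NormedSpace ℝ X] (s : ℕ → ℕ) (v : ℕ → ℕ → X)
    (m : ℕ) : ∑ j ∈ range (2 ^ s m), Dv s v m j = 0 := by
  unfold Dv
  rw [Finset.sum_sub_distrib, Finset.sum_const, card_range, ← Nat.cast_smul_eq_nsmul ℝ, smul_smul]
  push_cast
  rw [mul_inv_cancel₀ (by positivity), one_smul, sub_self]

/-- an average is bounded by the bound of the values -/
theorem avg_le {X : Type} [NormedAddCommGroup X] [NormedSpace ℝ X] (k : ℕ) (w : ℕ → X) (B : ℝ)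
    (h : ∀ j < 2 ^ k, ‖w j‖ ≤ B) :
    ‖((2 : ℝ) ^ k)⁻¹ • ∑ j ∈ range (2 ^ k), w j‖ ≤ B := by
  have h1 : ‖∑ j ∈ range (2 ^ k), w j‖ ≤ (2 : ℝ) ^ k * B := by
    calc ‖∑ j ∈ range (2 ^ k), w j‖ ≤ ∑ j ∈ range (2 ^ k), ‖w j‖ := norm_sum_le _ _
      _ ≤ ∑ j ∈ range (2 ^ k), B := Finset.sum_le_sum fun j hj => h j (Finset.mem_range.1 hj)
      _ = (2 : ℝ) ^ k * B := by
          rw [Finset.sum_const, card_range, nsmul_eq_mul]
          push_cast
          ring
  have h2 : (0 : ℝ) < 2 ^ k := by positivity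
  rw [norm_smul, norm_inv, Real.norm_of_nonneg h2.le, inv_mul_le_iff₀ h2]
  exact h1

theorem ala (hSwa : SwaStmt) (hSwb : SwbStmt) (hBlk : BlkStmt) (hQaa : QaaStmt) : AlaStmt := by
  intro X _ _ r hr hr1 hRsv NN δ u n c ζ ρ η s v Em b f z K hNN hn hnc hc hc1 hη hη1 hζ hζ2 hE hF
  obtain ⟨hmono, hfam, hnor, hsm, -⟩ := hF
  set k : ℕ := ∑ q ∈ range n, s q with hk
  obtain ⟨e, he1, he2, he3⟩ := hRsv ((m : Fin (n + 1)) × Fin (b m)) (2 ^ k)
    (fun p => f p.1 p.2) ζ hζ
  have hSwh : Swh n r c (2 * ζ) η s (Dv s v) e Em b f := by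
    refine ⟨hn, hnc, hr, hr1, hc, hc1, hη, hη1, by linarith, hζ2, hmono, ?_, ?_, he1, ?_, ?_, ?_,
      ?_⟩
    · intro m hm j hj
      constructor
      · unfold Dv
        refine (norm_sub_le _ _).trans ?_
        have h1 := hNN _ (hfam m hm j hj).1
        have h2 := avg_le (s m) (v m) 1 (fun j' hj' => hNN _ (hfam m hm j' hj').1)
        linarith
      · rw [Dv_eq s v u]
        refine Submodule.sub_mem _ (hfam m hm j hj).2.2 (Submodule.smul_mem _ _
          (Submodule.sum_mem _ fun j' hj' => (hfam m hm j' (Finset.mem_range.1 hj')).2.2))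
    · intro m _
      exact Dv_sum s v m
    · exact he3
    · intro m hm
      obtain ⟨h1, h2⟩ := hnor m hm
      refine ⟨h1, fun x hx => ?_⟩
      obtain ⟨j, hj⟩ := h2 x hx
      refine ⟨j, le_trans ?_ hj⟩
      have := norm_nonneg x
      nlinarith
    · intro m hm i q hmq hq j hj
      rw [Dv_eq s v u, map_sub, map_smul, map_sum]
      have h1 := hsm m hm i q hmq hq j hj
      have h2 := avg_le (X := ℝ) (s q) (fun j' => f m i (v q j' - u)) ζ (fun j' hj' => by
        rw [Real.norm_eq_abs]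
        exact hsm m hm i q hmq hq j' hj')
      rw [Real.norm_eq_abs] at h2
      calc _ ≤ |f m i (v q j - u)| + |((2 : ℝ) ^ s q)⁻¹ • ∑ j' ∈ range (2 ^ s q),
            f m i (v q j' - u)| := abs_sub _ _
        _ ≤ 2 * ζ := by linarith
    · intro m hm i l
      have h1 := he2 l ⟨⟨m, by omega⟩, i⟩
      change |f m i (e l)| ≤ ζ at h1
      linarith
  have hA := hSwa X n r c (2 * ζ) η s (Dv s v) e Em b f hSwh
  have hB := hSwb X n r c (2 * ζ) η s (Dv s v) e Em b f hSwh
  rw [← hk] at hA hB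
  let D : ℕ → X := fun l => lf s n c (Dv s v) e l -
    ((2 : ℝ) ^ k)⁻¹ • ∑ l' ∈ range (2 ^ k), lf s n c (Dv s v) e l'
  have hD0 : ∑ l ∈ range (2 ^ k), D l = 0 := by
    simp only [D]
    rw [Finset.sum_sub_distrib, Finset.sum_const, card_range, ← Nat.cast_smul_eq_nsmul ℝ,
      smul_smul]
    push_cast
    rw [mul_inv_cancel₀ (by positivity), one_smul, sub_self]
  have hDα : ∀ α : ℕ → ℝ, ∑ l ∈ range (2 ^ k), α l = 0 →
      ∑ l ∈ range (2 ^ k), α l • D l = ∑ l ∈ range (2 ^ k), α l • lf s n c (Dv s v) e l := by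
    intro α hα
    simp only [D, smul_sub]
    rw [Finset.sum_sub_distrib, ← Finset.sum_smul, hα, zero_smul, sub_zero]
  obtain ⟨z', hz1, hz2, hz3⟩ := hBlk X z K k D (6 / r) (c * r / 4) (1 + η) (by positivity)
    (by linarith) hD0 (by
      intro a α hα
      have hm : S z a K ∈ Em 0 := by
        rw [hE]
        exact S_mem z a K
      obtain ⟨h1, h2⟩ := hA (S z a K) hm α
      rw [hDα α hα]
      refine ⟨?_, h2, ?_⟩
      · have h3 := h1 0 (Nat.zero_le _)
        rw [Finset.range_zero, Finset.sum_empty, smul_zero, add_zero] at h3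
        exact h3
      · intro i hi
        rw [hDα _ ((hQaa.2.1 k i α hi).2.trans hα)]
        refine (hB (S z a K) hm α i hi).trans ?_
        have h4 : 6 / r ≤ 6 / r * (1 + η) := by
          have : 0 < 6 / r := by positivity
          nlinarith
        exact mul_le_mul_of_nonneg_right h4 (norm_nonneg _))
  exact ⟨e, z', he1, hz1, hz2, hz3⟩

end Pool.Agent.NA.H62
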